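import Pool.Agent.Y806.LL.Bridge

/-!
# No map `Irr GL₂(F) → Irr GL₂(F)` is compatible with all global liftings

`F = 𝔽₂((1/t))` is the completion of `K = 𝔽₂(t)` at infinity, `G = GL₂` and `ρ` is the identity
representation of the dual group. The automorphic representation `π₁` of `GL₂(𝔸_K)` which is
Steinberg at infinity and trivial at all finite places has global lifting the trivial
representation, whereas a cuspidal `π₂` which is Steinberg at infinity is its own lifting.
-/

namespace Pool.Agent.Results.MP_5ae62c_nt.NoLocalLiftingGL2

open Pool.Agent.Y806.LL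

theorem result : ¬ ∃ l : Irr GF → Irr GF, ∀ π P : SmoothIrrep GA,
    Aut.IsAutomorphic π → Aut.IsIsobaric P → Aut.IsGlobalLifting π P →
      ∀ σ τ : SmoothIrrep GF, Aut.IsComponentAtInfty σ π → Aut.IsComponentAtInfty τ P →
        l σ.cls = τ.cls :=
  aut_no_local_lifting

end Pool.Agent.Results.MP_5ae62c_nt.NoLocalLiftingGL2
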